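import Pool.Agent.Helper68.LM.Geo

/-!
# Project LM, module THA: Theorem A from the modules (compactness)
-/

set_option autoImplicit false

open MeasureTheory Set Filter Topology
open scoped ENNReal RealInnerProductSpace

namespace Pool.Agent.Helper2.LM

open Pool.Agent.Helper68.LM
open Pool.Agent.Helper61.Lacunary (ConditionG LpBounded)

namespace TH

/-- local coverings give a covering of a compact set -/
lemma cover_of_local (hCOV : StCOV) {p : ℝ} (hp : 1 < p) {Γ : Set Pl} (hΓ : IsCompact Γ)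
    (h : ∀ y ∈ Γ, ∃ U ∈ 𝓝 y, Cover p (Γ ∩ U)) : Cover p Γ := by
  obtain ⟨hmono, hunion, hnull, _⟩ := hCOV p hp
  refine hΓ.induction_on (p := Cover p) (hnull ∅ (by simp)) ?_ ?_ ?_
  · intro s t hst ht
    exact hmono s t hst ht
  · intro s t hs ht
    exact hunion s t hs ht
  · intro x hx
    obtain ⟨U, hU, hc⟩ := h x hx
    exact ⟨Γ ∩ U, inter_mem_nhdsWithin Γ hU, hc⟩

lemma cover_curved (hCOV : StCOV) {p : ℝ} (hp : 1 < p) {Γ : Set Pl} {y : Pl}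
    (h : CurvedAt Γ y) : ∃ U ∈ 𝓝 y, Cover p (Γ ∩ U) := by
  obtain ⟨hmono, _, _, harc⟩ := hCOV p hp
  obtain ⟨U, hU, G, a, b, κ, hG, hκ, hs⟩ := h
  exact ⟨U, hU, hmono _ _ hs (harc a b κ G hG hκ)⟩

lemma cover_singleton (hCOV : StCOV) {p : ℝ} (hp : 1 < p) (P : Pl) : Cover p {P} := by
  obtain ⟨_, _, hnull, _⟩ := hCOV p hp
  refine hnull _ ?_
  have := Measure.nullSingletonClass_hausdorff Pl (d := 1) one_pos
  exact measure_singleton P

lemma compact_frontier {Ω : Set Pl} (hb : Bornology.IsBounded Ω) : IsCompact (frontier Ω) :=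
  Metric.isCompact_of_isClosed_isBounded isClosed_frontier
    (hb.closure.subset frontier_subset_closure)

end TH

open TH in
theorem hTHA (hTC : StTC) (hCOV : StCOV) (hCAP : StCAP) (hDY : StDY) : StTHA := by
  intro Ω p q hΩo hΩc hΩb h0 hloc hq hqp hp hG
  refine hTC Ω p hΩb hp (cover_of_local hCOV hp (compact_frontier hΩb) ?_)
  intro y hy
  obtain ⟨hmono, hunion, _, _⟩ := hCOV p hp
  rcases hloc y hy with h | h
  · exact cover_curved hCOV hp h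
  · obtain ⟨U, hU, u₁, v₁, u₂, v₂, c₁, c₂, φ₁, φ₂, hS₁, hS₂, hf₁, hf₂, hsub⟩ := h
    have hne : Ω.Nonempty := ⟨0, h0⟩
    obtain ⟨A₁, hA₁, hb₁⟩ := hCAP Ω y u₁ v₁ c₁ q φ₁ hΩo hΩc hΩb hne hq hG hS₁ hy hf₁
    obtain ⟨A₂, hA₂, hb₂⟩ := hCAP Ω y u₂ v₂ c₂ q φ₂ hΩo hΩc hΩb hne hq hG hS₂ hy hf₂
    have hc₁ := hDY y u₁ v₁ c₁ q p A₁ φ₁ hS₁ hq hqp hp hA₁ hb₁
    have hc₂ := hDY y u₂ v₂ c₂ q p A₂ φ₂ hS₂ hq hqp hp hA₂ hb₂
    exact ⟨U, hU, hmono _ _ hsub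
      (hunion _ _ (cover_singleton hCOV hp y) (hunion _ _ hc₁ hc₂))⟩

end Pool.Agent.Helper2.LM
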