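import Pool.Agent.Helper68.LM.Geo
import Pool.Agent.Helper2.LM.M_THA

/-!
# Project LM, module THB: Theorem B from the modules
-/

set_option autoImplicit false

open MeasureTheory Set Filter Topology
open scoped ENNReal RealInnerProductSpace

namespace Pool.Agent.Helper2.LM

open Pool.Agent.Helper68.LM
open Pool.Agent.Helper61.Lacunary (ConditionG LpBounded)

namespace TH

lemma flatExp_neg (a t : ℝ) : flatExp a (-t) = flatExp a t := by
  rw [flatExp, flatExp, abs_neg]
  by_cases h : t = 0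
  · rw [h, neg_zero]
  · rw [if_neg h, if_neg (neg_ne_zero.mpr h)]

lemma inner_curve {u v : Pl} (hu : ‖u‖ = 1) (huv : ⟪u, v⟫ = 0) (P : Pl) (φ : ℝ → ℝ) (t : ℝ) :
    ⟪u, curve P u v φ t - P⟫ = t := by
  have e : curve P u v φ t - P = t • u + φ t • v := by
    rw [curve]
    abel
  rw [e, inner_add_right, inner_smul_right, inner_smul_right, huv, real_inner_self_eq_norm_sq, hu]
  ring

lemma abs_le_norm {u v : Pl} (hu : ‖u‖ = 1) (huv : ⟪u, v⟫ = 0) (P : Pl) (φ : ℝ → ℝ) (t : ℝ) :
    |t| ≤ ‖curve P u v φ t - P‖ := by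
  have h := abs_real_inner_le_norm u (curve P u v φ t - P)
  rw [inner_curve hu huv, hu, one_mul] at h
  exact h

end TH

open TH in
theorem hTHB (hTC : StTC) (hCOV : StCOV) (hDY : StDY) (hEX : StEX) : StTHB := by
  intro Ω p a ε P u v _ _ hΩb _ hu hv huv hε _ hloc hcurv ha hap hp
  obtain ⟨hmono, hunion, _, _⟩ := hCOV p hp
  refine hTC Ω p hΩb hp (cover_of_local hCOV hp (compact_frontier hΩb) ?_)
  intro y hy
  by_cases hyP : y = P
  · subst hyP
    obtain ⟨U, hU, hsub⟩ := hloc
    obtain ⟨c, hc0, hcε, hside⟩ := hEX a ha ε hε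
    have hS₁ := hside y u v hu hv huv
    have hS₂ := hside y (-u) v (by rw [norm_neg]; exact hu) hv (by rw [inner_neg_left, huv, neg_zero])
    have hb : ∀ t ∈ Ioo 0 c, Real.exp (-1 * t ^ (-a)) ≤ flatExp a t := by
      intro t ht
      rw [flatExp, if_neg ht.1.ne', abs_of_pos ht.1, Real.rpow_neg ht.1.le]
      apply le_of_eq
      congr 1
    have hc₁ := hDY y u v c a p 1 (flatExp a) hS₁ ha hap hp one_pos hb
    have hc₂ := hDY y (-u) v c a p 1 (flatExp a) hS₂ ha hap hp one_pos hb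
    refine ⟨U ∩ Metric.ball y c, inter_mem hU (Metric.ball_mem_nhds y hc0), ?_⟩
    refine hmono _ ({y} ∪ (curve y u v (flatExp a) '' Ioo 0 c ∪
      curve y (-u) v (flatExp a) '' Ioo 0 c)) ?_
      (hunion _ _ (cover_singleton hCOV hp y) (hunion _ _ hc₁ hc₂))
    rintro z ⟨hzf, hzU, hzb⟩
    obtain ⟨t, _, rfl⟩ := hsub ⟨hzf, hzU⟩
    have htc : |t| < c := by
      refine lt_of_le_of_lt (abs_le_norm hu huv y (flatExp a) t) ?_
      rw [← dist_eq_norm]
      exact hzb
    rw [abs_lt] at htc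
    rcases lt_trichotomy t 0 with h | h | h
    · right; right
      refine ⟨-t, ⟨by linarith, by linarith⟩, ?_⟩
      rw [curve, curve, flatExp_neg, neg_smul_neg]
    · left
      subst h
      rw [mem_singleton_iff, curve, flatExp, if_pos rfl, zero_smul, zero_smul, add_zero, add_zero]
    · right; left
      exact ⟨t, ⟨h, htc.2⟩, rfl⟩
  · exact cover_curved hCOV hp (hcurv y hy hyP)

end Pool.Agent.Helper2.LM
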